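import Mathlib

/-!
# Arithmetic `k`-spheres: definitions
-/

set_option autoImplicit false

namespace Pool.Agent.W22.AK

/-- The arithmetic `k`-sphere of radius `r` in `d` dimensions: the integer points `m` with
`|m_1| ^ k + ... + |m_d| ^ k = r ^ k`. -/
def sphere (k d : ℕ) (r : ℝ) : Set (Fin d → ℤ) :=
  {m | ∑ i, |(m i : ℝ)| ^ k = r ^ k}

/-- `N_{k,d}(r)`: the number of integer points on the arithmetic `k`-sphere of radius `r`. -/
noncomputable def latticeCount (k d : ℕ) (r : ℝ) : ℕ := (sphere k d r).ncard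

/-- `r` belongs to `R_{k,d}`: `r > 0`, `r ^ k` is a natural number and the sphere of radius `r`
contains an integer point. -/
def IsRadius (k d : ℕ) (r : ℝ) : Prop :=
  0 < r ∧ (∃ n : ℕ, r ^ k = n) ∧ (sphere k d r).Nonempty

/-- The asymptotic `N_{k,d}(r) ≍ r ^ (d - k)` holds in dimension `d`: there are constants
`0 < c ≤ C` and `r₀` with `c r ^ (d - k) ≤ N_{k,d}(r) ≤ C r ^ (d - k)` for every `r` in `R_{k,d}`
with `r ≥ r₀`. -/
def AsymptoticHolds (k d : ℕ) : Prop :=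
  ∃ c C r₀ : ℝ, 0 < c ∧ c ≤ C ∧ ∀ r : ℝ, IsRadius k d r → r₀ ≤ r →
    c * r ^ ((d : ℤ) - (k : ℤ)) ≤ (latticeCount k d r : ℝ) ∧
    (latticeCount k d r : ℝ) ≤ C * r ^ ((d : ℤ) - (k : ℤ))

/-- spheres are finite, so that `latticeCount` is the honest number of points -/
theorem sphere_finite {k : ℕ} (hk : 1 ≤ k) (d : ℕ) (r : ℝ) : (sphere k d r).Finite := by
  apply Set.Finite.subset
    (Set.finite_Icc (fun _ : Fin d => -(⌈|r|⌉ : ℤ)) (fun _ : Fin d => (⌈|r|⌉ : ℤ)))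
  intro m hm
  have hm' : ∑ i, |(m i : ℝ)| ^ k = r ^ k := hm
  have key : ∀ i, |(m i : ℝ)| ≤ |r| := by
    intro i
    have h1 : |(m i : ℝ)| ^ k ≤ ∑ i, |(m i : ℝ)| ^ k :=
      Finset.single_le_sum (f := fun i => |(m i : ℝ)| ^ k) (fun _ _ => by positivity)
        (Finset.mem_univ i)
    have h2 : |(m i : ℝ)| ^ k ≤ |r| ^ k := by
      rw [hm'] at h1
      refine h1.trans ?_
      rw [← abs_pow]
      exact le_abs_self _
    exact (pow_le_pow_iff_left₀ (abs_nonneg _) (abs_nonneg _) (by omega)).1 h2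
  have key2 : ∀ i, |(m i : ℤ)| ≤ ⌈|r|⌉ := by
    intro i
    have h1 := (key i).trans (Int.le_ceil |r|)
    have h2 : ((|m i| : ℤ) : ℝ) ≤ (⌈|r|⌉ : ℝ) := by
      rw [Int.cast_abs]; exact h1
    exact_mod_cast h2
  rw [Set.mem_Icc]
  constructor
  · intro i
    exact (abs_le.1 (key2 i)).1
  · intro i
    exact (abs_le.1 (key2 i)).2

end Pool.Agent.W22.AK
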