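import Pool.Agent.W22.AK.Global
import Pool.Agent.W22.AK.Defs

/-!
# Failure of the upper bound in dimension at most `k + 1`
-/

set_option autoImplicit false

namespace Pool.Agent.W22.AK

open Finset

theorem rep_le_box (k d n : ℕ) : rep k d n ≤ (n + 1) ^ d := by
  unfold rep
  refine (Finset.card_filter_le _ _).trans ?_
  rw [Fintype.card_piFinset]
  simp

/-- the positive real radius attached to `n` -/
noncomputable def rad (k n : ℕ) : ℝ := (n : ℝ) ^ ((k : ℝ)⁻¹)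

theorem rad_pow {k : ℕ} (hk : 1 ≤ k) (n : ℕ) : rad k n ^ k = n := by
  unfold rad
  rw [← Real.rpow_natCast, ← Real.rpow_mul (by positivity)]
  rw [inv_mul_cancel₀ (by positivity), Real.rpow_one]

theorem rad_nonneg (k n : ℕ) : 0 ≤ rad k n := by unfold rad; positivity

theorem rad_pos {k n : ℕ} (hn : 1 ≤ n) : 0 < rad k n := by
  unfold rad
  have : (0 : ℝ) < n := by exact_mod_cast hn
  positivity

theorem rad_le {k n y : ℕ} (hk : 1 ≤ k) (h : n ≤ y ^ k) : rad k n ≤ y := by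
  have h1 : rad k n ^ k ≤ (y : ℝ) ^ k := by
    rw [rad_pow hk]; exact_mod_cast h
  exact (pow_le_pow_iff_left₀ (rad_nonneg _ _) (by positivity) (by omega)).1 h1

theorem le_rad {k n y : ℕ} (hk : 1 ≤ k) (h : y ^ k ≤ n) : (y : ℝ) ≤ rad k n := by
  have h1 : (y : ℝ) ^ k ≤ rad k n ^ k := by
    rw [rad_pow hk]; exact_mod_cast h
  exact (pow_le_pow_iff_left₀ (by positivity) (rad_nonneg _ _) (by omega)).1 h1

theorem mem_sphere_of_rep {k d n : ℕ} (hk : 1 ≤ k) (x : Fin d → ℕ) (hx : ∑ i, x i ^ k = n) :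
    (fun i => ((x i : ℕ) : ℤ)) ∈ sphere k d (rad k n) := by
  show ∑ i, |(((x i : ℕ) : ℤ) : ℝ)| ^ k = rad k n ^ k
  rw [rad_pow hk, ← hx]
  push_cast
  simp

theorem rep_le_count {k : ℕ} (hk : 1 ≤ k) (d n : ℕ) : rep k d n ≤ latticeCount k d (rad k n) := by
  unfold rep latticeCount
  rw [← Set.ncard_coe_finset]
  apply Set.ncard_le_ncard_of_injOn (fun x => fun i => ((x i : ℕ) : ℤ)) ?_ ?_
    (sphere_finite hk d _)
  · intro x hx
    simp only [coe_filter, Set.mem_ofPred_eq] at hx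
    exact mem_sphere_of_rep hk x hx.2
  · intro x _ x' _ h
    funext i
    have h1 : ((x i : ℕ) : ℤ) = ((x' i : ℕ) : ℤ) := congrFun h i
    exact_mod_cast h1

theorem isRadius_of_rep {k d n : ℕ} (hk : 1 ≤ k) (hn : 1 ≤ n) (h : 0 < rep k d n) :
    IsRadius k d (rad k n) := by
  refine ⟨rad_pos hn, ⟨n, rad_pow hk n⟩, ?_⟩
  unfold rep at h
  obtain ⟨x, hx⟩ := Finset.card_pos.1 h
  simp only [mem_filter] at hx
  exact ⟨_, mem_sphere_of_rep hk x hx.2⟩

/-- from an upper bound on the counts to one on `rep` -/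
theorem rep_bound {k d : ℕ} (hk : 1 ≤ k) (C r₀ : ℝ)
    (h : ∀ r : ℝ, IsRadius k d r → r₀ ≤ r →
      (latticeCount k d r : ℝ) ≤ C * r ^ ((d : ℤ) - (k : ℤ))) (n : ℕ) :
    rep k d n ≤ (⌈r₀⌉₊ ^ k + 1) ^ d ∨
      (1 ≤ n ∧ (rep k d n : ℝ) ≤ C * (rad k n) ^ ((d : ℤ) - (k : ℤ))) := by
  by_cases hn : n ≤ ⌈r₀⌉₊ ^ k
  · left
    refine (rep_le_box k d n).trans (Nat.pow_le_pow_left (by omega) _)
  · by_cases hz : rep k d n = 0
    · left
      rw [hz]; exact Nat.zero_le _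
    · right
      have hn1 : 1 ≤ n := by omega
      refine ⟨hn1, ?_⟩
      have h1 : ((⌈r₀⌉₊ : ℕ) : ℝ) ≤ rad k n := le_rad hk (by omega)
      have h2 := h (rad k n) (isRadius_of_rep hk hn1 (Nat.pos_of_ne_zero hz))
        ((Nat.le_ceil r₀).trans h1)
      refine le_trans ?_ h2
      exact_mod_cast rep_le_count hk d n

/-- the upper bound fails in every dimension `1 ≤ d ≤ k + 1` -/
theorem upper_fails {k d : ℕ} (hk : 2 ≤ k) (hd : 1 ≤ d) (hdk : d ≤ k + 1) (C r₀ : ℝ) :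
    ∃ r : ℝ, IsRadius k d r ∧ r₀ ≤ r ∧
      C * r ^ ((d : ℤ) - (k : ℤ)) < (latticeCount k d r : ℝ) := by
  by_contra hcon
  have h : ∀ r : ℝ, IsRadius k d r → r₀ ≤ r →
      (latticeCount k d r : ℝ) ≤ C * r ^ ((d : ℤ) - (k : ℤ)) := by
    intro r h1 h2
    by_contra h3
    exact hcon ⟨r, h1, h2, not_le.1 h3⟩
  rcases Nat.lt_or_ge d k with hlt | hge
  · -- the trivial range
    set j : ℕ := ⌈|r₀|⌉₊ + ⌈|C|⌉₊ + 1 with hj
    have hj1 : (1 : ℝ) ≤ j := by
      rw [hj]; push_cast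
      have : (0 : ℝ) ≤ (⌈|r₀|⌉₊ : ℝ) := by positivity
      have : (0 : ℝ) ≤ (⌈|C|⌉₊ : ℝ) := by positivity
      linarith
    have hjr : r₀ ≤ j := by
      rw [hj]; push_cast
      have h1 : |r₀| ≤ (⌈|r₀|⌉₊ : ℝ) := Nat.le_ceil _
      have h2 : (0 : ℝ) ≤ (⌈|C|⌉₊ : ℝ) := by positivity
      have h3 := le_abs_self r₀
      linarith
    have hjC : |C| < j := by
      rw [hj]; push_cast
      have h1 : |C| ≤ (⌈|C|⌉₊ : ℝ) := Nat.le_ceil _
      have h2 : (0 : ℝ) ≤ (⌈|r₀|⌉₊ : ℝ) := by positivity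
      linarith
    have hmem : (Pi.single (⟨0, hd⟩ : Fin d) (j : ℤ)) ∈ sphere k d (j : ℝ) := by
      show ∑ i, |(((Pi.single (⟨0, hd⟩ : Fin d) (j : ℤ) : Fin d → ℤ) i : ℤ) : ℝ)| ^ k = (j : ℝ) ^ k
      rw [Finset.sum_eq_single (⟨0, hd⟩ : Fin d)]
      · simp
      · intro i _ hi
        rw [Pi.single_eq_of_ne hi]
        simp
        omega
      · intro h; exact absurd (mem_univ _) h
    have hrad : IsRadius k d (j : ℝ) :=
      ⟨by linarith, ⟨j ^ k, by push_cast; rfl⟩, ⟨_, hmem⟩⟩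
    have h1 := h _ hrad hjr
    have h2 : 1 ≤ latticeCount k d (j : ℝ) := by
      unfold latticeCount
      exact (Set.ncard_pos (sphere_finite (by omega) d _)).2 ⟨_, hmem⟩
    have h3 : (1 : ℝ) ≤ latticeCount k d (j : ℝ) := by exact_mod_cast h2
    have h4 : (j : ℝ) ^ ((d : ℤ) - (k : ℤ)) ≤ (j : ℝ) ^ (-1 : ℤ) :=
      zpow_le_zpow_right₀ hj1 (by omega)
    have h5 : 0 ≤ (j : ℝ) ^ ((d : ℤ) - (k : ℤ)) := by positivity
    have h6 : C * (j : ℝ) ^ ((d : ℤ) - (k : ℤ)) ≤ |C| * (j : ℝ) ^ (-1 : ℤ) := by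
      calc C * (j : ℝ) ^ ((d : ℤ) - (k : ℤ)) ≤ |C| * (j : ℝ) ^ ((d : ℤ) - (k : ℤ)) :=
            mul_le_mul_of_nonneg_right (le_abs_self C) h5
        _ ≤ _ := mul_le_mul_of_nonneg_left h4 (abs_nonneg C)
    have h7 : |C| * (j : ℝ) ^ (-1 : ℤ) < 1 := by
      rw [zpow_neg_one, ← div_eq_mul_inv, div_lt_one (by linarith)]
      exact hjC
    linarith
  · rcases Nat.lt_or_ge k d with hlt' | hge'
    · -- dimension `k + 1`
      have hd' : d = k + 1 := by omega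
      subst hd'
      set C' : ℕ := ⌈|C|⌉₊ + (⌈r₀⌉₊ ^ k + 1) ^ (k + 1) with hC'
      apply rep_not_bounded hk C'
      intro n y hy hn
      rcases rep_bound (by omega) C r₀ h n with h1 | ⟨hn1, h1⟩
      · calc rep k (k + 1) n ≤ (⌈r₀⌉₊ ^ k + 1) ^ (k + 1) := h1
          _ ≤ C' := by omega
          _ ≤ C' * y := Nat.le_mul_of_pos_right _ hy
      · have h2 : (((k + 1 : ℕ) : ℤ) - (k : ℤ)) = 1 := by push_cast; ring
        rw [h2, zpow_one] at h1
        have h3 : (rep k (k + 1) n : ℝ) ≤ (C' : ℝ) * y := by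
          calc (rep k (k + 1) n : ℝ) ≤ C * rad k n := h1
            _ ≤ |C| * rad k n := mul_le_mul_of_nonneg_right (le_abs_self C) (rad_nonneg _ _)
            _ ≤ |C| * y := mul_le_mul_of_nonneg_left (rad_le (by omega) hn) (abs_nonneg C)
            _ ≤ (C' : ℝ) * y := by
              apply mul_le_mul_of_nonneg_right _ (by positivity)
              rw [hC']; push_cast
              have h4 : |C| ≤ (⌈|C|⌉₊ : ℝ) := Nat.le_ceil _
              have h5 : (0 : ℝ) ≤ ((⌈r₀⌉₊ : ℝ) ^ k + 1) ^ (k + 1) := by positivity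
              linarith
        exact_mod_cast h3
    · -- dimension `k`
      have hd' : d = k := by omega
      subst hd'
      set C' : ℕ := ⌈|C|⌉₊ + (⌈r₀⌉₊ ^ d + 1) ^ d with hC'
      apply rep_not_bounded' hk C'
      intro n
      rcases rep_bound (by omega) C r₀ h n with h1 | ⟨hn1, h1⟩
      · omega
      · rw [sub_self, zpow_zero, mul_one] at h1
        have h3 : (rep d d n : ℝ) ≤ (C' : ℝ) := by
          calc (rep d d n : ℝ) ≤ C := h1
            _ ≤ |C| := le_abs_self C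
            _ ≤ (C' : ℝ) := by
              rw [hC']; push_cast
              have h4 : |C| ≤ (⌈|C|⌉₊ : ℝ) := Nat.le_ceil _
              have h5 : (0 : ℝ) ≤ ((⌈r₀⌉₊ : ℝ) ^ d + 1) ^ d := by positivity
              linarith
        exact_mod_cast h3

theorem not_asymptotic {k d : ℕ} (hk : 2 ≤ k) (hd : 1 ≤ d) (hdk : d ≤ k + 1) :
    ¬ AsymptoticHolds k d := by
  rintro ⟨c, C, r₀, _, _, h⟩
  obtain ⟨r, h1, h2, h3⟩ := upper_fails hk hd hdk C r₀
  exact absurd (h r h1 h2).2 (not_le.2 h3)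

end Pool.Agent.W22.AK
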