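import Pool.Agent.W22.AK.Lift
import Pool.Agent.H98R3.OM.A1

/-!
# The number of representations as a sum of `k + 1` nonnegative `k`-th powers is not `O(n^(1/k))`
-/

set_option autoImplicit false

namespace Pool.Agent.W22.AK

open Finset

/-- number of `x` in the box `[0, q) ^ d` with `q` dividing `x_1 ^ k + ... + x_d ^ k` -/
def zc (k d q : ℕ) : ℕ :=
  ((Fintype.piFinset (fun _ : Fin d => range q)).filter (fun x => q ∣ ∑ i, x i ^ k)).card

/-- number of representations of `n` as a sum of `d` nonnegative `k`-th powers -/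
def rep (k d n : ℕ) : ℕ :=
  ((Fintype.piFinset (fun _ : Fin d => range (n + 1))).filter (fun x => ∑ i, x i ^ k = n)).card

theorem zc_eq_cnt (k d q : ℕ) [NeZero q] : zc k d q = cnt (ZMod q) k d 0 := by
  unfold zc cnt
  apply Finset.card_bij' (fun x _ => fun i => ((x i : ℕ) : ZMod q))
    (fun y _ => fun i => (y i).val)
  · intro x hx
    simp only [mem_filter, Fintype.mem_piFinset, mem_range, mem_univ, true_and] at hx ⊢
    have := (ZMod.natCast_eq_zero_iff _ _).2 hx.2
    push_cast at this
    exact this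
  · intro y hy
    simp only [mem_filter, Fintype.mem_piFinset, mem_range, mem_univ, true_and] at hy ⊢
    refine ⟨fun i => ZMod.val_lt _, ?_⟩
    rw [← ZMod.natCast_eq_zero_iff]
    push_cast
    simp only [ZMod.natCast_zmod_val]
    exact hy
  · intro x hx
    simp only [mem_filter, Fintype.mem_piFinset, mem_range] at hx
    funext i
    exact ZMod.val_cast_of_lt (hx.1 i)
  · intro y hy
    funext i
    exact ZMod.natCast_zmod_val _

section
variable {R S : Type} [CommRing R] [Fintype R] [DecidableEq R] [CommRing S] [Fintype S]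
  [DecidableEq S]

theorem cnt_equiv (e : R ≃+* S) (k d : ℕ) : cnt R k d 0 = cnt S k d 0 := by
  unfold cnt
  apply Finset.card_bij' (fun x _ => fun i => e (x i)) (fun y _ => fun i => e.symm (y i))
  · intro x hx
    simp only [mem_filter, mem_univ, true_and] at hx ⊢
    have := congrArg e hx
    rw [map_sum, map_zero] at this
    simp_rw [map_pow] at this
    exact this
  · intro x hx
    simp only [mem_filter, mem_univ, true_and] at hx ⊢
    have := congrArg e.symm hx
    rw [map_sum, map_zero] at this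
    simp_rw [map_pow] at this
    exact this
  · intro x _
    funext i
    simp
  · intro x _
    funext i
    simp

theorem cnt_prod (k d : ℕ) : cnt (R × S) k d 0 = cnt R k d 0 * cnt S k d 0 := by
  unfold cnt
  rw [← Finset.card_product]
  refine Finset.card_bij' (fun x _ => ((fun i => (x i).1), (fun i => (x i).2)))
    (fun y _ => fun i => (y.1 i, y.2 i)) ?_ ?_ ?_ ?_
  · intro x hx
    simp only [mem_filter, mem_univ, true_and, mem_product] at hx ⊢
    have h1 := congrArg Prod.fst hx
    have h2 := congrArg Prod.snd hx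
    rw [Prod.fst_sum] at h1
    rw [Prod.snd_sum] at h2
    simp only [Prod.pow_fst, Prod.pow_snd, Prod.fst_zero, Prod.snd_zero] at h1 h2
    exact ⟨h1, h2⟩
  · intro y hy
    simp only [mem_filter, mem_univ, true_and, mem_product] at hy ⊢
    apply Prod.ext
    · rw [Prod.fst_sum]
      simp only [Prod.pow_fst, Prod.fst_zero]
      exact hy.1
    · rw [Prod.snd_sum]
      simp only [Prod.pow_snd, Prod.snd_zero]
      exact hy.2
  · intro x _
    rfl
  · intro y _
    rfl
end

theorem zc_mul (k d : ℕ) {a b : ℕ} (ha : a ≠ 0) (hb : b ≠ 0) (h : Nat.Coprime a b) :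
    zc k d (a * b) = zc k d a * zc k d b := by
  have : NeZero a := ⟨ha⟩
  have : NeZero b := ⟨hb⟩
  have : NeZero (a * b) := ⟨mul_ne_zero ha hb⟩
  rw [zc_eq_cnt, zc_eq_cnt, zc_eq_cnt, cnt_equiv (ZMod.chineseRemainder h), cnt_prod]

theorem zc_prod_ge {k : ℕ} (hk : 2 ≤ k) (P : Finset ℕ)
    (hP : ∀ p ∈ P, p.Prime ∧ ∃ m, p + 1 = 2 * k * m) :
    ((∏ p ∈ P, p ^ k : ℕ) : ℝ) ^ k * (1 + ∑ p ∈ P, 1 / (2 * (p : ℝ)))
      ≤ (zc k (k + 1) (∏ p ∈ P, p ^ k) : ℝ) := by
  classical
  induction P using Finset.induction_on with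
  | empty =>
    simp only [Finset.prod_empty, Finset.sum_empty, add_zero, Nat.cast_one, one_pow, mul_one]
    have : zc k (k + 1) 1 = 1 := by
      have : NeZero 1 := ⟨one_ne_zero⟩
      unfold zc
      simp
    rw [this]
    simp
  | insert p P hpP ih =>
    have hp := hP p (mem_insert_self _ _)
    have hP' : ∀ q ∈ P, q.Prime ∧ ∃ m, q + 1 = 2 * k * m :=
      fun q hq => hP q (mem_insert_of_mem hq)
    have ih := ih hP'
    rw [Finset.prod_insert hpP, Finset.sum_insert hpP]
    obtain ⟨hpp, m, hm⟩ := hp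
    have : Fact p.Prime := ⟨hpp⟩
    have hcop : Nat.Coprime (p ^ k) (∏ q ∈ P, q ^ k) := by
      apply Nat.Coprime.prod_right
      intro q hq
      apply Nat.Coprime.pow
      rw [Nat.coprime_primes hpp (hP' q hq).1]
      intro h
      exact hpP (h ▸ hq)
    have h0 : (∏ q ∈ P, q ^ k) ≠ 0 := by
      rw [Finset.prod_ne_zero_iff]
      intro q hq
      exact pow_ne_zero k (hP' q hq).1.ne_zero
    rw [zc_mul k (k + 1) (pow_ne_zero k hpp.ne_zero) h0 hcop]
    have h1 := cnt_pow_real (p := p) hk hm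
    rw [← zc_eq_cnt] at h1
    have hS : 0 ≤ ∑ q ∈ P, 1 / (2 * (q : ℝ)) := Finset.sum_nonneg (fun q _ => by positivity)
    have hp0 : (0 : ℝ) < p := by exact_mod_cast hpp.pos
    have h2 := mul_le_mul h1 ih (by positivity) (by positivity)
    push_cast at h2 ⊢
    refine le_trans ?_ h2
    set A : ℝ := (p : ℝ) ^ k
    set B : ℝ := ∏ q ∈ P, (q : ℝ) ^ k
    set s : ℝ := ∑ q ∈ P, 1 / (2 * (q : ℝ))
    have hA : 0 ≤ A := by positivity
    have hB : 0 ≤ B := by positivity
    rw [mul_pow]
    have h3 : 0 ≤ A ^ k * B ^ k * ((1 / (2 * (p : ℝ))) * s) := by positivity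
    nlinarith

/-- arbitrarily large products -/
theorem zc_large {k : ℕ} (hk : 2 ≤ k) (K : ℝ) :
    ∃ q : ℕ, 1 ≤ q ∧ K * (q : ℝ) ^ k < (zc k (k + 1) q : ℝ) := by
  classical
  have : NeZero (2 * k) := ⟨by omega⟩
  have hu : IsUnit (-1 : ZMod (2 * k)) := isUnit_one.neg
  have hns := Pool.Agent.H98R3.OM.not_summable_class hu
  set f : ℕ → ℝ := fun n : ℕ => if n.Prime ∧ (n : ZMod (2 * k)) = -1 then (1 : ℝ) / n else 0
    with hf
  have hf0 : ∀ n, 0 ≤ f n := by
    intro n; simp only [hf]; split_ifs <;> positivity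
  have ht := (not_summable_iff_tendsto_nat_atTop_of_nonneg hf0).1 hns
  obtain ⟨N, hN⟩ := (ht.eventually (Filter.eventually_gt_atTop (2 * K))).exists
  set P : Finset ℕ := (range N).filter (fun n => n.Prime ∧ (n : ZMod (2 * k)) = -1) with hP
  have hsum : ∑ n ∈ range N, f n = ∑ p ∈ P, 1 / (p : ℝ) := by
    rw [hP, Finset.sum_filter]
  have hPP : ∀ p ∈ P, p.Prime ∧ ∃ m, p + 1 = 2 * k * m := by
    intro p hp
    rw [hP, mem_filter] at hp
    refine ⟨hp.2.1, ?_⟩
    have h1 : ((p + 1 : ℕ) : ZMod (2 * k)) = 0 := by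
      push_cast
      rw [hp.2.2]
      ring
    rw [ZMod.natCast_eq_zero_iff] at h1
    exact h1
  refine ⟨∏ p ∈ P, p ^ k, ?_, ?_⟩
  · apply Nat.one_le_iff_ne_zero.2
    rw [Finset.prod_ne_zero_iff]
    intro q hq
    exact pow_ne_zero k (hPP q hq).1.ne_zero
  · refine lt_of_lt_of_le ?_ (zc_prod_ge hk P hPP)
    rw [mul_comm]
    apply mul_lt_mul_of_pos_left
    · have h2 : ∑ p ∈ P, 1 / (2 * (p : ℝ)) = (1 / 2) * ∑ p ∈ P, 1 / (p : ℝ) := by
        rw [Finset.mul_sum]
        apply Finset.sum_congr rfl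
        intro p _
        rw [one_div_mul_one_div]
      rw [h2, ← hsum]
      linarith
    · apply pow_pos
      rw [Nat.cast_pos]
      apply Nat.pos_of_ne_zero
      rw [Finset.prod_ne_zero_iff]
      intro q hq
      exact pow_ne_zero k (hPP q hq).1.ne_zero

/-- averaging -/
theorem zc_le {k d q C : ℕ} (hk : 1 ≤ k) (hd : 1 ≤ d) (hq : 1 ≤ q)
    (hC : ∀ n y : ℕ, 1 ≤ y → n ≤ y ^ k → rep k d n ≤ C * y) :
    zc k d q ≤ 2 * C * d ^ 2 * q ^ k := by
  classical
  set M : Finset ℕ := (range (d * q ^ k + 1)).filter (fun n => q ∣ n) with hM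
  have hMc : M.card ≤ d * q ^ (k - 1) + 1 := by
    have : M ⊆ (range (d * q ^ (k - 1) + 1)).image (fun j => q * j) := by
      intro n hn
      rw [hM, mem_filter, mem_range] at hn
      obtain ⟨j, hj⟩ := hn.2
      rw [mem_image]
      refine ⟨j, ?_, hj.symm⟩
      rw [mem_range]
      have h1 : q * j ≤ d * q ^ k := by omega
      have h2 : q ^ k = q * q ^ (k - 1) := by
        rw [← pow_succ']; congr 1; omega
      rw [h2] at h1
      have h3 : q * j ≤ q * (d * q ^ (k - 1)) := by
        calc q * j ≤ d * (q * q ^ (k - 1)) := h1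
          _ = _ := by ring
      have := Nat.le_of_mul_le_mul_left h3 hq
      omega
    calc M.card ≤ ((range (d * q ^ (k - 1) + 1)).image (fun j => q * j)).card :=
          Finset.card_le_card this
      _ ≤ (range (d * q ^ (k - 1) + 1)).card := Finset.card_image_le
      _ = _ := card_range _
  unfold zc
  have hmap : ∀ x ∈ ((Fintype.piFinset (fun _ : Fin d => range q)).filter
      (fun x => q ∣ ∑ i, x i ^ k)), (∑ i, x i ^ k) ∈ M := by
    intro x hx
    simp only [mem_filter, Fintype.mem_piFinset, mem_range] at hx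
    rw [hM, mem_filter, mem_range]
    refine ⟨?_, hx.2⟩
    have : ∑ i, x i ^ k ≤ ∑ i : Fin d, q ^ k :=
      Finset.sum_le_sum (fun i _ => Nat.pow_le_pow_left (hx.1 i).le k)
    rw [Finset.sum_const, Finset.card_univ, Fintype.card_fin, smul_eq_mul] at this
    omega
  rw [Finset.card_eq_sum_card_fiberwise hmap]
  have hfib : ∀ n ∈ M, (((Fintype.piFinset (fun _ : Fin d => range q)).filter
      (fun x => q ∣ ∑ i, x i ^ k)).filter (fun x => ∑ i, x i ^ k = n)).card ≤ C * (d * q) := by
    intro n hn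
    rw [hM, mem_filter, mem_range] at hn
    refine le_trans ?_ (hC n (d * q) (Nat.mul_pos hd hq) ?_)
    · unfold rep
      apply Finset.card_le_card
      intro x hx
      simp only [mem_filter, Fintype.mem_piFinset, mem_range] at hx ⊢
      refine ⟨?_, hx.2⟩
      intro i
      have h1 : x i ^ k ≤ ∑ i, x i ^ k :=
        Finset.single_le_sum (f := fun i => x i ^ k) (fun _ _ => Nat.zero_le _) (mem_univ i)
      have h2 : x i ≤ x i ^ k := Nat.le_self_pow (by omega) _
      omega
    · have : d * q ^ k ≤ (d * q) ^ k := by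
        rw [mul_pow]
        exact Nat.mul_le_mul_right _ (Nat.le_self_pow (by omega) _)
      omega
  calc ∑ n ∈ M, (((Fintype.piFinset (fun _ : Fin d => range q)).filter
      (fun x => q ∣ ∑ i, x i ^ k)).filter (fun x => ∑ i, x i ^ k = n)).card
      ≤ ∑ n ∈ M, C * (d * q) := Finset.sum_le_sum hfib
    _ = M.card * (C * (d * q)) := by rw [Finset.sum_const, smul_eq_mul]
    _ ≤ (d * q ^ (k - 1) + 1) * (C * (d * q)) := Nat.mul_le_mul_right _ hMc
    _ ≤ (2 * (d * q ^ (k - 1))) * (C * (d * q)) := by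
        apply Nat.mul_le_mul_right
        have : 1 ≤ d * q ^ (k - 1) := Nat.mul_pos hd (Nat.pow_pos hq)
        omega
    _ = 2 * C * d ^ 2 * q ^ k := by
        have h2 : q ^ k = q * q ^ (k - 1) := by
          rw [← pow_succ']; congr 1; omega
        rw [h2]
        ring

/-- main arithmetic statement in dimension `k + 1` -/
theorem rep_not_bounded {k : ℕ} (hk : 2 ≤ k) (C : ℕ) :
    ¬ ∀ n y : ℕ, 1 ≤ y → n ≤ y ^ k → rep k (k + 1) n ≤ C * y := by
  intro hC
  obtain ⟨q, hq, hq2⟩ := zc_large hk ((2 * C * (k + 1) ^ 2 : ℕ) : ℝ)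
  have h1 := zc_le (by omega) (by omega) hq hC
  have h2 : ((zc k (k + 1) q : ℕ) : ℝ) ≤ ((2 * C * (k + 1) ^ 2 * q ^ k : ℕ) : ℝ) := by
    exact_mod_cast h1
  push_cast at h2 hq2
  linarith

/-- main arithmetic statement in dimension `k` -/
theorem rep_not_bounded' {k : ℕ} (hk : 2 ≤ k) (C : ℕ) :
    ¬ ∀ n : ℕ, rep k k n ≤ C := by
  classical
  intro hC
  apply rep_not_bounded hk (2 * C)
  intro n y hy hn
  unfold rep
  -- fibre over the first coordinate
  have hmap : ∀ x ∈ ((Fintype.piFinset (fun _ : Fin (k + 1) => range (n + 1))).filter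
      (fun x => ∑ i, x i ^ k = n)), x 0 ∈ range (y + 1) := by
    intro x hx
    simp only [mem_filter, Fintype.mem_piFinset, mem_range] at hx ⊢
    have h1 : x 0 ^ k ≤ ∑ i, x i ^ k :=
      Finset.single_le_sum (f := fun i => x i ^ k) (fun _ _ => Nat.zero_le _) (mem_univ 0)
    have h2 : x 0 ^ k ≤ y ^ k := by omega
    have := (Nat.pow_le_pow_iff_left (by omega : k ≠ 0)).1 h2
    omega
  rw [Finset.card_eq_sum_card_fiberwise hmap]
  calc _ ≤ ∑ a ∈ range (y + 1), C := by
        apply Finset.sum_le_sum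
        intro a ha
        refine le_trans ?_ (hC (n - a ^ k))
        unfold rep
        apply Finset.card_le_card_of_injOn (fun x => fun i => x (Fin.succ i))
        · intro x hx
          simp only [coe_filter, mem_filter, Fintype.mem_piFinset, mem_range,
            Set.mem_ofPred_eq] at hx ⊢
          obtain ⟨⟨h1, h2⟩, h3⟩ := hx
          rw [Fin.sum_univ_succ, h3] at h2
          have h4 : ∑ i : Fin k, x i.succ ^ k = n - a ^ k := by omega
          refine ⟨?_, h4⟩
          intro i
          have h5 : x i.succ ^ k ≤ ∑ i : Fin k, x i.succ ^ k :=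
            Finset.single_le_sum (f := fun i : Fin k => x i.succ ^ k)
              (fun _ _ => Nat.zero_le _) (mem_univ i)
          have h6 : x i.succ ≤ x i.succ ^ k := Nat.le_self_pow (by omega) _
          omega
        · intro x hx x' hx' hxx
          simp only [coe_filter, mem_filter, Fintype.mem_piFinset, mem_range,
            Set.mem_ofPred_eq] at hx hx'
          funext i
          refine Fin.cases ?_ (fun j => ?_) i
          · rw [hx.2, hx'.2]
          · exact congrFun hxx j
    _ = (y + 1) * C := by rw [Finset.sum_const, card_range, smul_eq_mul]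
    _ ≤ 2 * C * y := by nlinarith

end Pool.Agent.W22.AK
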