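import Pool.Agent.W22.AK.Prime

/-!
# Lifting zeros of `x_1 ^ k + ... + x_d ^ k` from `p` to `p ^ k`
-/

set_option autoImplicit false

namespace Pool.Agent.W22.AK

open Finset

section

variable {p : ℕ} [hp : Fact p.Prime] {k : ℕ}

/-- reduction modulo `p` -/
def red (p k : ℕ) (hk : k ≠ 0) : ZMod (p ^ k) →+* ZMod p :=
  ZMod.castHom (dvd_pow_self p hk) (ZMod p)

theorem red_natCast (hk : k ≠ 0) (n : ℕ) : red p k hk (n : ZMod (p ^ k)) = n := by
  simp [red]

theorem red_surj (hk : k ≠ 0) : Function.Surjective (red p k hk) :=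
  ZMod.ringHom_surjective _

instance neZero_pow : NeZero (p ^ k) := ⟨pow_ne_zero k hp.out.ne_zero⟩

theorem dvd_of_red (hk : k ≠ 0) {w : ZMod (p ^ k)} (hw : red p k hk w = 1) :
    (p : ZMod (p ^ k)) ∣ w - 1 := by
  have h1 : w = ((w.val : ℕ) : ZMod (p ^ k)) := (ZMod.natCast_zmod_val w).symm
  have h2 : ((w.val : ℕ) : ZMod p) = 1 := by
    rw [← red_natCast (k := k) hk, ← h1]; exact hw
  have h3 : (((w.val : ℤ) - 1 : ℤ) : ZMod p) = 0 := by
    push_cast
    rw [h2, sub_self]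
  rw [ZMod.intCast_zmod_eq_zero_iff_dvd] at h3
  obtain ⟨c, hc⟩ := h3
  refine ⟨(c : ZMod (p ^ k)), ?_⟩
  have h4 := congrArg (fun z : ℤ => (z : ZMod (p ^ k))) hc
  push_cast at h4
  rw [ZMod.natCast_zmod_val] at h4
  exact h4

theorem pow_eq_one_of_red (hk : k ≠ 0) {w : ZMod (p ^ k)} (hw : red p k hk w = 1) :
    w ^ (p ^ (k - 1)) = 1 := by
  have h1 := dvd_sub_pow_of_dvd_sub (dvd_of_red hk hw) (k - 1)
  have h2 : k - 1 + 1 = k := by omega
  rw [h2] at h1
  have h3 : ((p : ZMod (p ^ k))) ^ k = 0 := by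
    have : (((p ^ k : ℕ)) : ZMod (p ^ k)) = 0 := ZMod.natCast_self _
    push_cast at this
    exact this
  rw [h3, zero_dvd_iff, one_pow] at h1
  exact sub_eq_zero.1 h1

theorem zero_of_red (hk : k ≠ 0) {w : ZMod (p ^ k)} (hw : red p k hk w = 0) : w ^ k = 0 := by
  have h1 : w = ((w.val : ℕ) : ZMod (p ^ k)) := (ZMod.natCast_zmod_val w).symm
  have h2 : ((w.val : ℕ) : ZMod p) = 0 := by
    rw [← red_natCast (k := k) hk, ← h1]; exact hw
  rw [ZMod.natCast_eq_zero_iff] at h2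
  obtain ⟨c, hc⟩ := h2
  rw [h1, hc]
  have : (((p ^ k : ℕ)) : ZMod (p ^ k)) = 0 := ZMod.natCast_self _
  push_cast at this ⊢
  rw [mul_pow, this, zero_mul]

theorem exists_root (hk : 2 ≤ k) (hkp : Nat.Coprime k p) (z : ZMod p) (hz : z ≠ 0)
    (c : ZMod (p ^ k)) (hc : red p k (by omega) c = z ^ k) :
    ∃ y : ZMod (p ^ k), red p k (by omega) y = z ∧ y ^ k = c := by
  have hk0 : k ≠ 0 := by omega
  have hcop : Nat.Coprime z.val (p ^ k) := by
    apply Nat.Coprime.pow_right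
    rw [Nat.coprime_comm, Nat.Prime.coprime_iff_not_dvd hp.out]
    intro h
    apply hz
    rw [← ZMod.natCast_eq_zero_iff] at h
    rwa [ZMod.natCast_zmod_val] at h
  set u : (ZMod (p ^ k))ˣ := ZMod.unitOfCoprime z.val hcop with hu
  have hu1 : red p k hk0 (u : ZMod (p ^ k)) = z := by
    rw [hu, ZMod.coe_unitOfCoprime, red_natCast, ZMod.natCast_zmod_val]
  set w : ZMod (p ^ k) := c * ((u⁻¹ : (ZMod (p ^ k))ˣ) : ZMod (p ^ k)) ^ k with hw
  have huinv : red p k hk0 ((u⁻¹ : (ZMod (p ^ k))ˣ) : ZMod (p ^ k)) * z = 1 := by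
    rw [← hu1, ← map_mul]
    simp
  have hw1 : red p k hk0 w = 1 := by
    rw [hw, map_mul, map_pow, hc, ← mul_pow, mul_comm, huinv, one_pow]
  have hcop2 : Nat.Coprime k (p ^ (k - 1)) := Nat.Coprime.pow_right _ hkp
  have hgt : 1 < p ^ (k - 1) := Nat.one_lt_pow (by omega) hp.out.one_lt
  obtain ⟨a, -, ha⟩ := Nat.exists_mul_mod_eq_one_of_coprime hcop2 hgt
  refine ⟨(u : ZMod (p ^ k)) * w ^ a, ?_, ?_⟩
  · rw [map_mul, map_pow, hw1, one_pow, mul_one, hu1]
  · have h1 : w ^ (k * a) = w := by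
      have h2 : k * a = p ^ (k - 1) * (k * a / p ^ (k - 1)) + 1 := by
        have := Nat.div_add_mod (k * a) (p ^ (k - 1))
        rw [ha] at this
        exact this.symm
      rw [h2, pow_succ, pow_mul, pow_eq_one_of_red hk0 hw1, one_pow, one_mul]
    rw [mul_pow, ← pow_mul, mul_comm a k, h1, hw]
    have h3 : (u : ZMod (p ^ k)) ^ k * (((u⁻¹ : (ZMod (p ^ k))ˣ) : ZMod (p ^ k)) ^ k) = 1 := by
      rw [← mul_pow]; simp
    linear_combination c * h3

theorem fiber_card (hk : k ≠ 0) (c : ZMod p) :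
    (univ.filter (fun z : ZMod (p ^ k) => red p k hk z = c)).card = p ^ (k - 1) := by
  have h1 : ∀ c' : ZMod p, (univ.filter (fun z : ZMod (p ^ k) => red p k hk z = c')).card
      = (univ.filter (fun z : ZMod (p ^ k) => red p k hk z = c)).card := by
    intro c'
    exact AddMonoidHom.card_fiber_eq_of_mem_range (red p k hk) (red_surj hk c') (red_surj hk c)
  have h2 : (univ : Finset (ZMod (p ^ k))).card
      = ∑ c' : ZMod p, (univ.filter (fun z : ZMod (p ^ k) => red p k hk z = c')).card :=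
    Finset.card_eq_sum_card_fiberwise (fun _ _ => mem_univ _)
  simp_rw [h1] at h2
  rw [Finset.card_univ, ZMod.card, Finset.sum_const, Finset.card_univ, ZMod.card, smul_eq_mul] at h2
  have h3 : p ^ k = p * p ^ (k - 1) := by
    rw [← pow_succ']
    congr 1
    omega
  exact (Nat.eq_of_mul_eq_mul_left hp.out.pos (h3.symm.trans h2)).symm

theorem pi_fiber_card (hk : k ≠ 0) {d : ℕ} (c : Fin d → ZMod p) :
    (univ.filter (fun x : Fin d → ZMod (p ^ k) => ∀ i, red p k hk (x i) = c i)).card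
      = (p ^ (k - 1)) ^ d := by
  have : (univ.filter (fun x : Fin d → ZMod (p ^ k) => ∀ i, red p k hk (x i) = c i))
      = Fintype.piFinset (fun i => univ.filter (fun z : ZMod (p ^ k) => red p k hk z = c i)) := by
    ext x
    simp [Fintype.mem_piFinset]
  rw [this, Fintype.card_piFinset]
  simp [fiber_card]

theorem sum_update {R : Type} [CommRing R] {d : ℕ} (k : ℕ) (x : Fin d → R) (i0 : Fin d) (z : R) :
    ∑ i, (Function.update x i0 z) i ^ k = z ^ k + (∑ i, x i ^ k - x i0 ^ k) := by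
  rw [← Finset.add_sum_erase univ (fun i => (Function.update x i0 z) i ^ k) (mem_univ i0)]
  rw [← Finset.add_sum_erase univ (fun i => x i ^ k) (mem_univ i0)]
  have : ∑ i ∈ univ.erase i0, (Function.update x i0 z) i ^ k = ∑ i ∈ univ.erase i0, x i ^ k := by
    apply Finset.sum_congr rfl
    intro i hi
    rw [Function.update_of_ne (Finset.ne_of_mem_erase hi)]
  rw [this]
  simp

/-- lifting of a nonzero zero modulo `p` -/
theorem lift_card (hk : 2 ≤ k) (hkp : Nat.Coprime k p) {d : ℕ} (c : Fin d → ZMod p)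
    (hc0 : c ≠ 0) (hc : ∑ i, c i ^ k = 0) :
    (p ^ (k - 1)) ^ d ≤ p ^ (k - 1) * (univ.filter (fun x : Fin d → ZMod (p ^ k) =>
      (∀ i, red p k (by omega) (x i) = c i) ∧ ∑ i, x i ^ k = 0)).card := by
  classical
  have hk0 : k ≠ 0 := by omega
  obtain ⟨i0, hi0⟩ : ∃ i0, c i0 ≠ 0 := by
    by_contra hcon
    push Not at hcon
    exact hc0 (funext hcon)
  rw [← pi_fiber_card hk0 c]
  have hroot : ∀ e : ZMod (p ^ k), ∃ y : ZMod (p ^ k),
      red p k hk0 e = c i0 ^ k → (red p k hk0 y = c i0 ∧ y ^ k = e) := by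
    intro e
    by_cases h : red p k hk0 e = c i0 ^ k
    · obtain ⟨y, hy⟩ := exists_root hk hkp (c i0) hi0 e h
      exact ⟨y, fun _ => hy⟩
    · exact ⟨0, fun h' => absurd h' h⟩
  choose ρ hρ using hroot
  apply Finset.card_le_mul_card_image_of_maps_to
    (f := fun x => Function.update x i0 (ρ (x i0 ^ k - ∑ i, x i ^ k)))
  · intro x hx
    rw [mem_filter] at hx ⊢
    have hx' := hx.2
    have hred : red p k hk0 (x i0 ^ k - ∑ i, x i ^ k) = c i0 ^ k := by
      rw [map_sub, map_pow, map_sum]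
      simp_rw [map_pow, hx']
      rw [hc, sub_zero]
    obtain ⟨h1, h2⟩ := hρ _ hred
    refine ⟨mem_univ _, ?_, ?_⟩
    · intro i
      by_cases hi : i = i0
      · subst hi
        simp only [Function.update_self]
        exact h1
      · simp only [Function.update_of_ne hi]
        exact hx' i
    · rw [sum_update, h2]
      ring
  · intro b hb
    rw [← fiber_card hk0 (c i0)]
    apply Finset.card_le_card_of_injOn (fun x => x i0)
    · intro x hx
      simp only [coe_filter, mem_filter, mem_univ, true_and, Set.mem_ofPred_eq] at hx ⊢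
      exact hx.1 i0
    · intro x hx x' hx' hxx
      simp only [coe_filter, mem_filter, mem_univ, true_and, Set.mem_ofPred_eq] at hx hx'
      simp only at hxx
      ext i
      by_cases hi : i = i0
      · rw [hi]; exact hxx
      · have h1 := congrFun hx.2 i
        have h2 := congrFun hx'.2 i
        rw [Function.update_of_ne hi] at h1 h2
        rw [h1, h2]

/-- lower bound for the number of zeros modulo `p ^ k` -/
theorem cnt_pow_ge (hk : 2 ≤ k) {m : ℕ} (hm : p + 1 = 2 * k * m) :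
    p ^ (k - 1) * (p ^ (k - 1)) ^ (k + 1) + (p ^ k - 1) * (p ^ (k - 1)) ^ (k + 1)
      ≤ p ^ (k - 1) * cnt (ZMod (p ^ k)) k (k + 1) 0 := by
  classical
  have hk0 : k ≠ 0 := by omega
  have hkp : Nat.Coprime k p := by
    have h1 : Nat.Coprime (p + 1) p := by simp
    rw [hm] at h1
    exact Nat.Coprime.coprime_dvd_left (Dvd.intro_left (2 * m) (by ring)) h1
  -- fibration over the zeros modulo `p`
  set S : Finset (Fin (k + 1) → ZMod (p ^ k)) :=
    univ.filter (fun x : Fin (k + 1) → ZMod (p ^ k) => ∑ i, x i ^ k = 0) with hS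
  set T : Finset (Fin (k + 1) → ZMod p) :=
    univ.filter (fun x : Fin (k + 1) → ZMod p => ∑ i, x i ^ k = 0) with hT
  have hcnt : cnt (ZMod (p ^ k)) k (k + 1) 0 = S.card := rfl
  have hTc : T.card = p ^ k := by
    have := cnt_prime (p := p) (by omega) hm
    exact this
  have hmap : ∀ x ∈ S, (fun i => red p k hk0 (x i)) ∈ T := by
    intro x hx
    rw [hS, mem_filter] at hx
    rw [hT, mem_filter]
    refine ⟨mem_univ _, ?_⟩
    have h1 := congrArg (red p k hk0) hx.2
    rw [map_sum, map_zero] at h1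
    simp_rw [map_pow] at h1
    exact h1
  have hfib := Finset.card_eq_sum_card_fiberwise hmap
  have h0T : (0 : Fin (k + 1) → ZMod p) ∈ T := by
    rw [hT, mem_filter]
    refine ⟨mem_univ _, ?_⟩
    simp [hk0]
  rw [← Finset.add_sum_erase T _ h0T] at hfib
  have hz : (S.filter (fun x => (fun i => red p k hk0 (x i)) = 0)).card
      = (p ^ (k - 1)) ^ (k + 1) := by
    rw [← pi_fiber_card hk0 (0 : Fin (k + 1) → ZMod p)]
    congr 1
    ext x
    simp only [mem_filter, mem_univ, true_and, hS, funext_iff, Pi.zero_apply]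
    constructor
    · intro h
      exact h.2
    · intro h
      refine ⟨?_, h⟩
      apply Finset.sum_eq_zero
      intro i _
      exact zero_of_red hk0 (h i)
  have hnz : ∀ c ∈ T.erase 0, (p ^ (k - 1)) ^ (k + 1)
      ≤ p ^ (k - 1) * (S.filter (fun x => (fun i => red p k hk0 (x i)) = c)).card := by
    intro c hc
    rw [mem_erase, hT, mem_filter] at hc
    have := lift_card hk hkp c hc.1 hc.2.2
    refine this.trans (Nat.mul_le_mul_left _ (Finset.card_le_card ?_))
    intro x hx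
    simp only [mem_filter, mem_univ, true_and, hS] at hx ⊢
    exact ⟨hx.2, funext hx.1⟩
  rw [hcnt, hfib, hz, mul_add]
  apply Nat.add_le_add_left
  rw [Finset.mul_sum]
  calc (p ^ k - 1) * (p ^ (k - 1)) ^ (k + 1) = ∑ c ∈ T.erase 0, (p ^ (k - 1)) ^ (k + 1) := by
        rw [Finset.sum_const, Finset.card_erase_of_mem h0T, hTc, smul_eq_mul]
    _ ≤ _ := Finset.sum_le_sum hnz

/-- the normalised count is at least `1 + 1 / (2p)` -/
theorem cnt_pow_real (hk : 2 ≤ k) {m : ℕ} (hm : p + 1 = 2 * k * m) :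
    ((p ^ k : ℕ) : ℝ) ^ k * (1 + 1 / (2 * p)) ≤ (cnt (ZMod (p ^ k)) k (k + 1) 0 : ℝ) := by
  have h1 := cnt_pow_ge (p := p) hk hm
  have hp1 : (1 : ℝ) < p := by exact_mod_cast hp.out.one_lt
  have hp2 : (2 : ℝ) ≤ p := by exact_mod_cast hp.out.two_le
  have hp0 : (0 : ℝ) < p := by linarith
  have h2 : ((p : ℝ) ^ (k - 1)) * ((p : ℝ) ^ (k - 1)) ^ (k + 1)
      + ((p : ℝ) ^ k - 1) * ((p : ℝ) ^ (k - 1)) ^ (k + 1)
      ≤ (p : ℝ) ^ (k - 1) * (cnt (ZMod (p ^ k)) k (k + 1) 0 : ℝ) := by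
    have h3 : 1 ≤ p ^ k := Nat.one_le_pow _ _ hp.out.pos
    have h4 := (Nat.cast_le (α := ℝ)).2 h1
    push_cast [Nat.cast_sub h3] at h4
    exact h4
  have hQ : 0 < (p : ℝ) ^ (k - 1) := by positivity
  set Q : ℝ := (p : ℝ) ^ (k - 1) with hQdef
  have hpk : (p : ℝ) ^ k = p * Q := by
    rw [hQdef, ← pow_succ']
    congr 1
    omega
  have hQp : (p : ℝ) ≤ Q := by
    rw [hQdef]
    calc (p : ℝ) = (p : ℝ) ^ 1 := (pow_one _).symm
      _ ≤ (p : ℝ) ^ (k - 1) := pow_le_pow_right₀ hp1.le (by omega)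
  -- divide by Q
  have h5 : Q ^ (k + 1) + ((p : ℝ) * Q - 1) * Q ^ k
      ≤ (cnt (ZMod (p ^ k)) k (k + 1) 0 : ℝ) := by
    rw [hpk] at h2
    have h6 : Q * (Q ^ (k + 1) + ((p : ℝ) * Q - 1) * Q ^ k)
        ≤ Q * (cnt (ZMod (p ^ k)) k (k + 1) 0 : ℝ) := by
      refine le_trans (le_of_eq ?_) h2
      ring
    exact le_of_mul_le_mul_left h6 hQ
  refine le_trans ?_ h5
  have hQk : Q ^ (k + 1) = Q * Q ^ k := pow_succ' Q k
  have hcast : ((p ^ k : ℕ) : ℝ) = p * Q := by push_cast; exact hpk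
  rw [hcast, mul_pow, hQk, hpk]
  have h7 : (p : ℝ) * Q * Q ^ k * (1 + 1 / (2 * p)) = Q ^ k * (p * Q + Q / 2) := by
    field_simp
  rw [h7]
  have h8 : 0 ≤ Q ^ k := by positivity
  nlinarith [mul_nonneg h8 (by linarith : (0 : ℝ) ≤ Q / 2 - 1)]

end

end Pool.Agent.W22.AK
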