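import Mathlib

/-!
# Counting zeros of `x_1 ^ k + ... + x_d ^ k` modulo a prime `p` with `p ≡ -1 mod 2k`
-/

set_option autoImplicit false

namespace Pool.Agent.W22.AK

open Finset

/-- the number of `x` in `R ^ d` with `x_1 ^ k + ... + x_d ^ k = s` -/
def cnt (R : Type) [CommRing R] [Fintype R] [DecidableEq R] (k d : ℕ) (s : R) : ℕ :=
  (univ.filter (fun x : Fin d → R => ∑ i, x i ^ k = s)).card

variable {R : Type} [CommRing R] [Fintype R] [DecidableEq R]

theorem cnt_eq_sum (k d : ℕ) (s : R) :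
    (cnt R k d s : ℤ) = ∑ x : Fin d → R, if ∑ i, x i ^ k = s then 1 else 0 := by
  unfold cnt
  rw [Finset.card_filter]
  push_cast
  rfl

theorem cnt_succ (k d : ℕ) (s : R) :
    (cnt R k (d + 1) s : ℤ) = ∑ y : R, (cnt R k d (s - y ^ k) : ℤ) := by
  rw [cnt_eq_sum]
  rw [← (Fin.consEquiv (fun _ : Fin (d + 1) => R)).sum_comp]
  rw [Fintype.sum_prod_type]
  apply Finset.sum_congr rfl
  intro y _
  rw [cnt_eq_sum]
  apply Finset.sum_congr rfl
  intro x _
  have : (∑ i : Fin (d + 1), ((Fin.consEquiv (fun _ : Fin (d + 1) => R)) (y, x)) i ^ k)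
      = y ^ k + ∑ i, x i ^ k := by
    rw [Fin.sum_univ_succ]
    simp [Fin.consEquiv]
  rw [this]
  congr 1
  rw [eq_sub_iff_add_eq, add_comm]

theorem cnt_zero (k : ℕ) (s : R) : cnt R k 0 s = if s = 0 then 1 else 0 := by
  unfold cnt
  rw [Finset.card_filter]
  simp [eq_comm]

/-- sum over all values -/
theorem cnt_sum (k d : ℕ) : ∑ s : R, (cnt R k d s : ℤ) = (Fintype.card R : ℤ) ^ d := by
  have : ∀ s : R, (cnt R k d s : ℤ) = ∑ x : Fin d → R, if ∑ i, x i ^ k = s then 1 else 0 :=
    cnt_eq_sum k d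
  simp_rw [this]
  rw [Finset.sum_comm]
  simp

/-- number of `k`-th roots -/
theorem cnt_one_sub (k : ℕ) (g : R → ℤ) :
    ∑ y : R, g (y ^ k) = ∑ a : R, ((univ.filter (fun y : R => y ^ k = a)).card : ℤ) * g a := by
  rw [← Finset.sum_fiberwise (s := univ) (g := fun y : R => y ^ k)]
  apply Finset.sum_congr rfl
  intro a _
  rw [Finset.sum_congr rfl (g := fun _ => g a)]
  · simp
  · intro y hy
    rw [Finset.mem_filter] at hy
    rw [hy.2]

/-- if every `a` satisfies `#{y ^ k = a} + #{y ^ k = -a} = 2`, then the deviation of the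
number of representations from its mean is odd or even according to the parity of `d` -/
theorem dev_parity (k : ℕ)
    (h2 : ∀ a : R, (univ.filter (fun y : R => y ^ k = a)).card +
      (univ.filter (fun y : R => y ^ k = -a)).card = 2) (d : ℕ) :
    ∀ s : R, (cnt R k (d + 1) (-s) : ℤ) - (Fintype.card R : ℤ) ^ d
      = (-1) ^ (d + 1) * ((cnt R k (d + 1) s : ℤ) - (Fintype.card R : ℤ) ^ d) := by
  induction d with
  | zero =>
    intro s
    have key : ∀ s : R, (cnt R k 1 s : ℤ) = ((univ.filter (fun y : R => y ^ k = s)).card : ℤ) := by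
      intro s
      rw [cnt_succ]
      simp_rw [cnt_zero]
      rw [Finset.card_filter]
      push_cast
      apply Finset.sum_congr rfl
      intro y _
      by_cases h : y ^ k = s
      · simp [h]
      · rw [if_neg h, if_neg (fun h' => h (sub_eq_zero.1 h').symm)]
    simp only [zero_add, pow_zero, pow_one]
    rw [key, key]
    have := h2 s
    have h3 : ((univ.filter (fun y : R => y ^ k = s)).card : ℤ) +
      ((univ.filter (fun y : R => y ^ k = -s)).card : ℤ) = 2 := by exact_mod_cast this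
    linarith
  | succ d ih =>
    intro s
    set C : ℤ := (Fintype.card R : ℤ) with hC
    have hS : ∀ t : R, (cnt R k (d + 2) t : ℤ) - C ^ (d + 1)
        = ∑ y : R, ((cnt R k (d + 1) (t - y ^ k) : ℤ) - C ^ d) := by
      intro t
      rw [cnt_succ, Finset.sum_sub_distrib]
      simp only [Finset.sum_const, Finset.card_univ, nsmul_eq_mul]
      rw [← hC]
      ring
    rw [hS, hS]
    have h1 : ∀ y : R, (cnt R k (d + 1) (-s - y ^ k) : ℤ) - C ^ d
        = (-1) ^ (d + 1) * ((cnt R k (d + 1) (s + y ^ k) : ℤ) - C ^ d) := by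
      intro y
      have := ih (s + y ^ k)
      rw [← this]
      congr 3
      ring
    simp_rw [h1]
    rw [← Finset.mul_sum]
    have h3 : ∑ y : R, ((cnt R k (d + 1) (s + y ^ k) : ℤ) - C ^ d)
        + ∑ y : R, ((cnt R k (d + 1) (s - y ^ k) : ℤ) - C ^ d) = 0 := by
      rw [cnt_one_sub k (fun a => (cnt R k (d + 1) (s + a) : ℤ) - C ^ d)]
      rw [cnt_one_sub k (fun a => (cnt R k (d + 1) (s - a) : ℤ) - C ^ d)]
      rw [← Equiv.sum_comp (Equiv.neg R) (fun a => ((univ.filter (fun y : R => y ^ k = a)).card : ℤ)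
        * ((cnt R k (d + 1) (s - a) : ℤ) - C ^ d))]
      rw [← Finset.sum_add_distrib]
      have h4 : ∀ a : R, ((univ.filter (fun y : R => y ^ k = a)).card : ℤ)
          * ((cnt R k (d + 1) (s + a) : ℤ) - C ^ d)
          + ((univ.filter (fun y : R => y ^ k = (Equiv.neg R) a)).card : ℤ)
          * ((cnt R k (d + 1) (s - (Equiv.neg R) a) : ℤ) - C ^ d)
          = 2 * ((cnt R k (d + 1) (s + a) : ℤ) - C ^ d) := by
        intro a
        simp only [Equiv.neg_apply, sub_neg_eq_add]
        have h5 : ((univ.filter (fun y : R => y ^ k = a)).card : ℤ) +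
          ((univ.filter (fun y : R => y ^ k = -a)).card : ℤ) = 2 := by exact_mod_cast h2 a
        rw [← add_mul, h5]
      simp_rw [h4]
      rw [← Finset.mul_sum]
      have h6 := Equiv.sum_comp (Equiv.addLeft s) (fun a => (cnt R k (d + 1) a : ℤ) - C ^ d)
      simp only [Equiv.coe_addLeft] at h6
      rw [h6]
      rw [Finset.sum_sub_distrib, cnt_sum]
      simp only [Finset.sum_const, Finset.card_univ, nsmul_eq_mul]
      rw [← hC]
      ring
    rw [eq_neg_of_add_eq_zero_left h3]
    ring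

/-- for odd `d` the number of zeros is exactly `|R| ^ (d - 1)` -/
theorem cnt_zero_of_even (k : ℕ)
    (h2 : ∀ a : R, (univ.filter (fun y : R => y ^ k = a)).card +
      (univ.filter (fun y : R => y ^ k = -a)).card = 2) (d : ℕ) (hd : Even d) :
    cnt R k (d + 1) 0 = (Fintype.card R) ^ d := by
  have := dev_parity k h2 d 0
  rw [neg_zero] at this
  have h3 : ((-1 : ℤ)) ^ (d + 1) = -1 := by
    rw [pow_succ, hd.neg_one_pow]; ring
  rw [h3] at this
  have h4 : (cnt R k (d + 1) 0 : ℤ) = (Fintype.card R : ℤ) ^ d := by linarith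
  exact_mod_cast h4

/-- if `k`-th powers are a permutation then the number of zeros is exactly `|R| ^ (d - 1)` -/
theorem cnt_of_bij (k : ℕ) (hb : Function.Bijective (fun y : R => y ^ k)) (d : ℕ) (s : R) :
    cnt R k (d + 1) s = (Fintype.card R) ^ d := by
  have : (cnt R k (d + 1) s : ℤ) = (Fintype.card R : ℤ) ^ d := by
    rw [cnt_succ]
    rw [← cnt_sum (R := R) k d]
    have := Equiv.sum_comp (Equiv.ofBijective _ hb) (fun a => (cnt R k d (s - a) : ℤ))
    simp only [Equiv.ofBijective_apply] at this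
    rw [this]
    exact Equiv.sum_comp (Equiv.subLeft s) (fun a => (cnt R k d a : ℤ))
  exact_mod_cast this

end Pool.Agent.W22.AK
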