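import Pool.Agent.W22.AK.Final

/-!
# Local obstructions
-/

set_option autoImplicit false

namespace Pool.Agent.W22.AK

open Finset

theorem mem_sphere_iff {k d : ℕ} {r : ℝ} {n : ℕ} (hr : r ^ k = n) (m : Fin d → ℤ) :
    m ∈ sphere k d r ↔ ∑ i, (m i).natAbs ^ k = n := by
  show ∑ i, |(m i : ℝ)| ^ k = r ^ k ↔ _
  rw [hr]
  have : ∀ i, |(m i : ℝ)| ^ k = (((m i).natAbs ^ k : ℕ) : ℝ) := by
    intro i
    push_cast
    rw [Nat.cast_natAbs, Int.cast_abs]
  simp_rw [this]
  rw [← Nat.cast_sum, Nat.cast_inj]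

/-- the local obstruction: if all `k`-th powers of integers prime to `p` are `1` modulo `p ^ t`,
`t ≤ k`, then a sum of fewer than `p ^ t` such powers divisible by `p ^ t` has all its terms
divisible by `p` -/
theorem all_dvd {k t p d : ℕ} (hp : p.Prime) (htk : t ≤ k)
    (hpow : ∀ x : ℕ, ¬ p ∣ x → x ^ k ≡ 1 [MOD p ^ t]) (hd : d < p ^ t)
    (a : Fin d → ℕ) (ha : p ^ t ∣ ∑ i, a i ^ k) : ∀ i, p ∣ a i := by
  classical
  set T : Finset (Fin d) := univ.filter (fun i => ¬ p ∣ a i) with hT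
  have h1 : ∑ i, a i ^ k ≡ ∑ i, (if ¬ p ∣ a i then 1 else 0) [MOD p ^ t] := by
    apply Nat.ModEq.sum
    intro i _
    by_cases h : p ∣ a i
    · rw [if_neg (by simpa using h)]
      exact (Nat.modEq_zero_iff_dvd).2 ((pow_dvd_pow p htk).trans (pow_dvd_pow_of_dvd h k))
    · rw [if_pos h]
      exact hpow _ h
  rw [← Finset.card_filter, ← hT] at h1
  have h2 : p ^ t ∣ T.card := (Nat.ModEq.dvd_iff h1 dvd_rfl).1 ha
  have h3 : T.card < p ^ t := by
    calc T.card ≤ (univ : Finset (Fin d)).card := Finset.card_filter_le _ _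
      _ = d := by simp
      _ < p ^ t := hd
  have h4 : T.card = 0 := Nat.eq_zero_of_dvd_of_lt h2 h3
  rw [Finset.card_eq_zero] at h4
  intro i
  by_contra hi
  have : i ∈ T := by rw [hT, mem_filter]; exact ⟨mem_univ _, hi⟩
  rw [h4] at this
  simp at this

/-- the points on the unit sphere -/
theorem count_one {k : ℕ} (hk : 1 ≤ k) (d : ℕ) : latticeCount k d 1 = 2 * d := by
  classical
  unfold latticeCount
  have : sphere k d 1 = ((univ : Finset (Fin d × Bool)).image
      (fun q => (Pi.single q.1 (if q.2 then (1 : ℤ) else -1) : Fin d → ℤ)) : Set (Fin d → ℤ)) := by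
    ext m
    rw [mem_sphere_iff (n := 1) (by simp)]
    simp only [coe_image, Set.mem_image, mem_coe, mem_univ, true_and, Prod.exists, coe_univ,
      Set.mem_univ]
    constructor
    · intro h
      -- some coordinate is nonzero
      obtain ⟨i, hi⟩ : ∃ i, m i ≠ 0 := by
        by_contra hcon
        push Not at hcon
        rw [Finset.sum_eq_zero] at h
        · exact absurd h (by norm_num)
        · intro i _
          rw [hcon i]
          simp
          omega
      have h1 : (m i).natAbs ^ k + ∑ j ∈ univ.erase i, (m j).natAbs ^ k = 1 := by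
        rw [← h]
        exact Finset.add_sum_erase univ (fun j => (m j).natAbs ^ k) (mem_univ i)
      have h2 : 1 ≤ (m i).natAbs ^ k := Nat.one_le_pow _ _ (Int.natAbs_pos.2 hi)
      have h3 : (m i).natAbs ^ k = 1 := by omega
      have h4 : ∑ j ∈ univ.erase i, (m j).natAbs ^ k = 0 := by omega
      have h5 : (m i).natAbs = 1 := (Nat.pow_eq_one.1 h3).resolve_right (by omega)
      have h6 : ∀ j, j ≠ i → m j = 0 := by
        intro j hj
        have := (Finset.sum_eq_zero_iff.1 h4) j (mem_erase.2 ⟨hj, mem_univ _⟩)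
        have := (pow_eq_zero_iff (by omega)).1 this
        exact Int.natAbs_eq_zero.1 this
      rcases Int.natAbs_eq (m i) with h7 | h7
      · refine ⟨i, true, ?_⟩
        funext j
        by_cases hj : j = i
        · subst hj
          rw [h7, h5]; simp
        · rw [Pi.single_eq_of_ne hj, h6 j hj]
      · refine ⟨i, false, ?_⟩
        funext j
        by_cases hj : j = i
        · subst hj
          rw [h7, h5]; simp
        · rw [Pi.single_eq_of_ne hj, h6 j hj]
    · rintro ⟨i, b, rfl⟩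
      rw [Finset.sum_eq_single i]
      · cases b <;> simp
      · intro j _ hj
        rw [Pi.single_eq_of_ne hj]
        simp
        omega
      · intro h; exact absurd (mem_univ _) h
  rw [this, Set.ncard_coe_finset, Finset.card_image_of_injective]
  · simp [mul_comm]
  · rintro ⟨i, b⟩ ⟨j, c⟩ h
    simp only at h
    have hij : i = j := by
      by_contra hij
      have h1 := congrFun h i
      rw [Pi.single_eq_same, Pi.single_eq_of_ne hij] at h1
      cases b <;> simp at h1
    subst hij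
    have h1 := congrFun h i
    rw [Pi.single_eq_same, Pi.single_eq_same] at h1
    cases b <;> cases c <;> simp at h1 ⊢

/-- under the local obstruction the count is constant along the powers of `p` -/
theorem count_pow {k t p d : ℕ} (hp : p.Prime) (hk : 1 ≤ k) (htk : t ≤ k)
    (hpow : ∀ x : ℕ, ¬ p ∣ x → x ^ k ≡ 1 [MOD p ^ t]) (hd : d < p ^ t) (j : ℕ) :
    latticeCount k d ((p : ℝ) ^ j) = 2 * d := by
  induction j with
  | zero => rw [pow_zero]; exact count_one hk d
  | succ j ih =>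
    rw [← ih]
    unfold latticeCount
    have hr1 : ((p : ℝ) ^ j) ^ k = (((p ^ j) ^ k : ℕ) : ℝ) := by push_cast; rfl
    have hr2 : ((p : ℝ) ^ (j + 1)) ^ k = (((p ^ (j + 1)) ^ k : ℕ) : ℝ) := by push_cast; rfl
    have himg : sphere k d ((p : ℝ) ^ (j + 1))
        = (fun m : Fin d → ℤ => fun i => (p : ℤ) * m i) '' sphere k d ((p : ℝ) ^ j) := by
      ext m
      rw [mem_sphere_iff hr2, Set.mem_image]
      constructor
      · intro h
        have hdvd : p ^ t ∣ ∑ i, (m i).natAbs ^ k := by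
          rw [h]
          refine (pow_dvd_pow p htk).trans (pow_dvd_pow_of_dvd ?_ k)
          exact dvd_pow_self p (by omega)
        have hall := all_dvd hp htk hpow hd _ hdvd
        choose c hc using fun i => Int.natCast_dvd.2 (hall i)
        refine ⟨c, ?_, ?_⟩
        · rw [mem_sphere_iff hr1]
          have h2 : p ^ k * ∑ i, (c i).natAbs ^ k = p ^ k * (p ^ j) ^ k := by
            have h3 : p ^ k * (p ^ j) ^ k = (p ^ (j + 1)) ^ k := by
              rw [← mul_pow, pow_succ']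
            rw [h3, ← h, Finset.mul_sum]
            apply Finset.sum_congr rfl
            intro i _
            rw [hc i, Int.natAbs_mul, Int.natAbs_natCast, mul_pow]
          exact Nat.eq_of_mul_eq_mul_left (Nat.pow_pos hp.pos) h2
        · funext i
          exact (hc i).symm
      · rintro ⟨c, hc, rfl⟩
        rw [mem_sphere_iff hr1] at hc
        have h3 : (p ^ (j + 1)) ^ k = p ^ k * (p ^ j) ^ k := by
          rw [← mul_pow, pow_succ']
        rw [h3, ← hc, Finset.mul_sum]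
        apply Finset.sum_congr rfl
        intro i _
        rw [Int.natAbs_mul, Int.natAbs_natCast, mul_pow]
    rw [himg, Set.ncard_image_of_injective]
    intro m m' h
    funext i
    have h1 : (p : ℤ) * m i = (p : ℤ) * m' i := congrFun h i
    exact mul_left_cancel₀ (by exact_mod_cast hp.ne_zero) h1

/-- constancy along the powers of `p` contradicts the asymptotic unless `d = k` -/
theorem not_asymptotic_of_const {k d p : ℕ} (hp : p.Prime) (hk : 2 ≤ k) (hd : 1 ≤ d)
    (hc : ∀ j : ℕ, latticeCount k d ((p : ℝ) ^ j) = 2 * d) : ¬ AsymptoticHolds k d := by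
  rcases Nat.lt_or_ge (k + 1) d with hlt | hge
  · rintro ⟨c, C, r₀, hc0, _, h⟩
    have hp1 : (1 : ℝ) < p := by exact_mod_cast hp.one_lt
    obtain ⟨j1, hj1⟩ := pow_unbounded_of_one_lt r₀ hp1
    obtain ⟨j2, hj2⟩ := pow_unbounded_of_one_lt ((2 * d : ℝ) / c) hp1
    set j := j1 + j2 with hj
    have hrad : IsRadius k d ((p : ℝ) ^ j) := by
      refine ⟨by positivity, ⟨(p ^ j) ^ k, by push_cast; rfl⟩, ?_⟩
      have h1 : 0 < latticeCount k d ((p : ℝ) ^ j) := by rw [hc]; omega
      unfold latticeCount at h1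
      exact (Set.ncard_pos (sphere_finite (by omega) d _)).1 h1
    have hr : r₀ ≤ (p : ℝ) ^ j := hj1.le.trans (pow_le_pow_right₀ hp1.le (by omega))
    have h1 := (h _ hrad hr).1
    rw [hc] at h1
    have h2 : (p : ℝ) ^ j ≤ ((p : ℝ) ^ j) ^ ((d : ℤ) - (k : ℤ)) := by
      calc (p : ℝ) ^ j = ((p : ℝ) ^ j) ^ (1 : ℤ) := (zpow_one _).symm
        _ ≤ _ := zpow_le_zpow_right₀ (one_le_pow₀ hp1.le) (by omega)
    have h3 : (2 * d : ℝ) / c < (p : ℝ) ^ j :=
      hj2.trans_le (pow_le_pow_right₀ hp1.le (by omega))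
    rw [div_lt_iff₀ hc0] at h3
    push_cast at h1
    have h4 : c * (p : ℝ) ^ j ≤ c * ((p : ℝ) ^ j) ^ ((d : ℤ) - (k : ℤ)) :=
      mul_le_mul_of_nonneg_left h2 hc0.le
    linarith
  · exact not_asymptotic hk hd hge

theorem odd_pow_two {x : ℕ} (hx : ¬ 2 ∣ x) (n : ℕ) :
    x ^ (2 ^ (n + 1)) ≡ 1 [MOD 2 ^ (n + 3)] := by
  induction n with
  | zero =>
    have h1 : x % 8 = 1 ∨ x % 8 = 3 ∨ x % 8 = 5 ∨ x % 8 = 7 := by omega
    show x ^ 2 ≡ 1 [MOD 8]
    unfold Nat.ModEq
    rw [Nat.pow_mod]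
    rcases h1 with h | h | h | h <;> rw [h]
  | succ n ih =>
    rw [Nat.ModEq.comm, Nat.modEq_iff_dvd] at ih ⊢
    push_cast at ih ⊢
    have h1 : (x : ℤ) ^ 2 ^ (n + 1 + 1) - 1
        = ((x : ℤ) ^ 2 ^ (n + 1) - 1) * ((x : ℤ) ^ 2 ^ (n + 1) + 1) := by
      rw [pow_succ 2 (n + 1), pow_mul]; ring
    rw [h1]
    have h2 : (2 : ℤ) ∣ (x : ℤ) ^ 2 ^ (n + 1) + 1 := by
      have hx' : Odd (x : ℤ) := by
        rw [Int.odd_coe_nat, ← Nat.not_even_iff_odd, even_iff_two_dvd]; exact hx
      have := (hx'.pow (n := 2 ^ (n + 1))).add_odd odd_one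
      exact even_iff_two_dvd.1 this
    calc (2 : ℤ) ^ (n + 1 + 3) = 2 ^ (n + 3) * 2 := by ring
      _ ∣ _ := mul_dvd_mul ih h2

/-- the moduli `p ^ t` for which every `k`-th power is `0` or `1` -/
theorem pow_modEq_one {k p t : ℕ} (hp : p.Prime)
    (h : (p - 1) * p ^ (t - 1) ∣ k ∨ (p = 2 ∧ 3 ≤ t ∧ 2 ^ (t - 2) ∣ k)) (ht : 1 ≤ t) (x : ℕ)
    (hx : ¬ p ∣ x) : x ^ k ≡ 1 [MOD p ^ t] := by
  rcases h with h | ⟨rfl, ht3, h⟩
  · obtain ⟨c, rfl⟩ := h
    have h1 : Nat.Coprime x (p ^ t) := by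
      apply Nat.Coprime.pow_right
      rw [Nat.coprime_comm, Nat.Prime.coprime_iff_not_dvd hp]
      exact hx
    have h2 := Nat.ModEq.pow_totient h1
    rw [Nat.totient_prime_pow hp ht] at h2
    rw [pow_mul, mul_comm (p - 1)]
    simpa using h2.pow c
  · obtain ⟨c, rfl⟩ := h
    have h2 := odd_pow_two hx (t - 3)
    have h3 : t - 3 + 1 = t - 2 := by omega
    have h4 : t - 3 + 3 = t := by omega
    rw [h3, h4] at h2
    rw [pow_mul]
    simpa using h2.pow c

theorem t_le_k {k p t : ℕ} (hp : p.Prime) (hk : 3 ≤ k)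
    (h : (p - 1) * p ^ (t - 1) ∣ k ∨ (p = 2 ∧ 3 ≤ t ∧ 2 ^ (t - 2) ∣ k)) (ht : 1 ≤ t) : t ≤ k := by
  rcases h with h | ⟨rfl, ht3, h⟩
  · have h1 := Nat.le_of_dvd (by omega) h
    have h2 : t - 1 < p ^ (t - 1) := Nat.lt_pow_self hp.one_lt
    have h3 : 1 * p ^ (t - 1) ≤ (p - 1) * p ^ (t - 1) :=
      Nat.mul_le_mul_right _ (by have := hp.two_le; omega)
    omega
  · have h1 := Nat.le_of_dvd (by omega) h
    by_cases ht4 : t = 3
    · omega
    · have h2 : t - 3 < 2 ^ (t - 3) := Nat.lt_pow_self (by norm_num)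
      have h3 : 2 ^ (t - 2) = 2 * 2 ^ (t - 3) := by
        rw [← pow_succ']; congr 1; omega
      omega

end Pool.Agent.W22.AK
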