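import Pool.Agent.W22.AK.Local

/-!
# Counting zeros of `x_1 ^ k + ... + x_(k+1) ^ k` modulo a prime `p` with `p ≡ -1 mod 2k`
-/

set_option autoImplicit false

namespace Pool.Agent.W22.AK

open Finset

section

variable {p : ℕ} [hp : Fact p.Prime] {k m : ℕ}

theorem sq_eq_of (hk : 1 ≤ k) (hm : p + 1 = 2 * k * m) (x : ZMod p) :
    x ^ (2 * k * m) = x ^ 2 := by
  have h1 : 2 * k * m = p + 1 := hm.symm
  rw [h1, pow_succ, ZMod.pow_card, pow_two]

theorem neg_ne (hm : p + 1 = 2 * k * m) {a : ZMod p} (ha : a ≠ 0) : a ≠ -a := by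
  intro h
  have h2 : (2 : ZMod p) * a = 0 := by
    have : a + a = 0 := by
      nth_rewrite 2 [h]
      ring
    linear_combination this
  rcases mul_eq_zero.1 h2 with h3 | h3
  · have h4 : ((2 : ℕ) : ZMod p) = 0 := by exact_mod_cast h3
    rw [ZMod.natCast_eq_zero_iff] at h4
    have h5 := (Nat.prime_dvd_prime_iff_eq hp.out Nat.prime_two).1 h4
    rw [h5, mul_assoc] at hm
    omega
  · exact ha h3

theorem pow_roots (hk : 1 ≤ k) (hm : p + 1 = 2 * k * m) {a : ZMod p} (ha : a ≠ 0)
    (x : ZMod p) : (x ^ k = a ∨ x ^ k = -a) ↔ (x = a ^ m ∨ x = - a ^ m) := by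
  rw [← sq_eq_sq_iff_eq_or_eq_neg, ← sq_eq_sq_iff_eq_or_eq_neg]
  constructor
  · intro h
    have h1 : (x ^ k) ^ (2 * m) = a ^ (2 * m) := by
      rw [pow_mul, h, ← pow_mul]
    rw [← pow_mul] at h1
    have h2 : k * (2 * m) = 2 * k * m := by ring
    rw [h2, sq_eq_of hk hm] at h1
    rw [h1, ← pow_mul]
    ring
  · intro h
    have h1 : (x ^ 2) ^ k = ((a ^ m) ^ 2) ^ k := by rw [h]
    have h2 : ((a ^ m) ^ 2) ^ k = a ^ (2 * k * m) := by
      rw [← pow_mul, ← pow_mul]
      congr 1
      ring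
    rw [h2, sq_eq_of hk hm] at h1
    rw [← h1, ← pow_mul, ← pow_mul, mul_comm]

theorem two_roots (hk : 1 ≤ k) (hm : p + 1 = 2 * k * m) (a : ZMod p) :
    (univ.filter (fun y : ZMod p => y ^ k = a)).card +
      (univ.filter (fun y : ZMod p => y ^ k = -a)).card = 2 := by
  by_cases ha : a = 0
  · subst ha
    rw [neg_zero]
    have : (univ.filter (fun y : ZMod p => y ^ k = 0)) = {0} := by
      ext y
      simp only [mem_filter, mem_univ, true_and, mem_singleton]
      exact pow_eq_zero_iff (by omega)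
    rw [this]
    rfl
  · rw [← Finset.card_union_of_disjoint]
    · have : (univ.filter (fun y : ZMod p => y ^ k = a)) ∪
          (univ.filter (fun y : ZMod p => y ^ k = -a)) = {a ^ m, - a ^ m} := by
        ext y
        simp only [mem_union, mem_filter, mem_univ, true_and, mem_insert, mem_singleton]
        exact pow_roots hk hm ha y
      rw [this]
      rw [Finset.card_pair]
      exact neg_ne hm (pow_ne_zero _ ha)
    · rw [Finset.disjoint_left]
      intro y hy hy'
      rw [mem_filter] at hy hy'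
      exact neg_ne hm ha (hy.2.symm.trans hy'.2)

theorem bij_of_odd (hk : 1 ≤ k) (hm : p + 1 = 2 * k * m) (hodd : Odd k) :
    Function.Bijective (fun y : ZMod p => y ^ k) := by
  rw [← Finite.injective_iff_bijective]
  intro x y hxy
  simp only at hxy
  by_cases hy : y = 0
  · rw [hy, zero_pow (by omega)] at hxy
    rw [hy]
    exact (pow_eq_zero_iff (by omega)).1 hxy
  · have h1 : x ^ (2 * k * m) = y ^ (2 * k * m) := by
      have : 2 * k * m = k * (2 * m) := by ring
      rw [this, pow_mul, hxy, ← pow_mul]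
    rw [sq_eq_of hk hm, sq_eq_of hk hm] at h1
    rcases sq_eq_sq_iff_eq_or_eq_neg.1 h1 with h | h
    · exact h
    · exfalso
      rw [h, hodd.neg_pow] at hxy
      exact neg_ne hm (pow_ne_zero k hy) hxy.symm

/-- the number of zeros of `x_1 ^ k + ... + x_(k+1) ^ k` in `F_p` is exactly `p ^ k` -/
theorem cnt_prime (hk : 1 ≤ k) (hm : p + 1 = 2 * k * m) :
    cnt (ZMod p) k (k + 1) 0 = p ^ k := by
  rcases Nat.even_or_odd k with h | h
  · rw [cnt_zero_of_even k (two_roots hk hm) k h, ZMod.card]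
  · rw [cnt_of_bij k (bij_of_odd hk hm h) k 0, ZMod.card]

end

end Pool.Agent.W22.AK
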